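import Pool.Agent.Q169.SP.Criterion

/-!
# Vanishing above the middle for full subcomplexes of flag spheres

Let the flag complex `L` of the graph `G` on `0, ..., N-1` be a homology sphere of dimension `n - 1`, and let `A` be a
full subcomplex. A regular neighbourhood of the Davis complex of the right-angled Coxeter group `W_A` in the Davis
manifold of `L`, divided by a torsion-free subgroup of finite index of `W_A`, is a compact aspherical `n`-manifold with
boundary. We prove that the `ℓ²`-homology of `W_A` vanishes above the middle under a local colouring criterion on the
simplices which meet `A`.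
-/

set_option autoImplicit false

namespace Pool.Agent.Results.MP_8fe54c_gt.CriterionOnSubset

open Finset Pool.Agent.W907.SG Pool.Agent.W907.SM Pool.Agent.TH652.Above Pool.Agent.Q169.RC
open Pool.Agent.Q169.SP (flagComplex IsHomologySphere Criterion)

/-- Let the flag complex of `G` be a homology sphere of dimension `n - 1` over the reals and modulo `2`. If the set `A` of
vertices satisfies the criterion then for all full subcomplexes `A'` with vertices in `A` and all `i > n / 2` the Davis
complex of the right-angled Coxeter group of `A'` has no nonzero `ℓ²` harmonic `i`-chains. -/
theorem result (n N : ℕ) (G : SimpleGraph (Fin N)) (hR : HSph n G) (h2 : IsHomologySphere (flagComplex G) n)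
    (A : Set (Fin N)) (hA : Criterion n G A) (A' : Set (Fin N)) [Fintype A'] (hA' : A' ⊆ A) (i : ℕ)
    (hi : n < 2 * i) : L2Van (G.induce A') i :=
  Pool.Agent.Q169.SP.rel_van G hR h2 A hA A' hA' i hi _ _

end Pool.Agent.Results.MP_8fe54c_gt.CriterionOnSubset
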