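import Pool.Agent.Q169.SP.Criterion
import Pool.Agent.Q169.SP.OnlyMiddle

/-!
# `ℓ²`-Betti numbers of compact aspherical manifolds with boundary: deleted independent sets

Let the flag complex `L` of the graph `G` on `0, ..., N-1` be a homology sphere of dimension `n - 1`, and let `A` be a
full subcomplex. A regular neighbourhood of the Davis complex of the right-angled Coxeter group `W_A` in the Davis
manifold of `L`, divided by a torsion-free subgroup of finite index of `W_A`, is a compact aspherical `n`-manifold with
boundary. We compute all `ℓ²`-Betti numbers (in the language of the growth of Betti numbers) if `A` is the complement of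
an independent set of vertices, under a local colouring criterion.
-/

set_option autoImplicit false

namespace Pool.Agent.Results.MP_8fe54c_gt.IndependentDeletion

open Finset Pool.Agent.W907.SG Pool.Agent.W907.SM Pool.Agent.TH652.Above Pool.Agent.Q169.RC Pool.Agent.Y132.SI
open Pool.Agent.Q169.SP (flagComplex IsHomologySphere Criterion OnlyMiddle onlyMiddle rel_van mem_flag)

/-- Let the flag complex of `G` be a homology sphere of dimension `n - 1` over the reals and modulo `2`, assume the
criterion for the set of all vertices, and let `I` be an independent set of vertices such that all simplices with a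
vertex in `I` are good.
(1) Let `n = 2 m`. Then the right-angled Coxeter group of the complement of `I` has `ℓ²`-homology only in the degree `m`,
and its `m`-th `ℓ²`-Betti number is `(-1)^m χ(W G)`.
(2) Let `n = 2 m + 1`. Then the right-angled Coxeter group of the complement of `I` has `ℓ²`-homology only in the
degree `m`, and its `m`-th `ℓ²`-Betti number is `(1/2) ∑_(v ∈ I) (-1)^m χ_v`. -/
theorem result (n N : ℕ) (G : SimpleGraph (Fin N)) (hR : HSph n G) (h2 : IsHomologySphere (flagComplex G) n)
    (hc : Criterion n G Set.univ) (I : Finset (Fin N)) [Fintype ↥((I : Set (Fin N))ᶜ)]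
    (hI : ∀ u ∈ I, ∀ v ∈ I, ¬ G.Adj u v)
    (hg : ∀ v ∈ I, ∀ T : Finset (Fin N), v ∈ T → G.IsClique (T : Set (Fin N)) → Good n G T) :
    (∀ m : ℕ, n = 2 * m → OnlyMiddle m (G.induce ((I : Set (Fin N))ᶜ)) ((-1) ^ m * chiW G)) ∧
    (∀ m : ℕ, n = 2 * m + 1 → OnlyMiddle m (G.induce ((I : Set (Fin N))ᶜ))
      ((1 / 2) * ∑ v ∈ I, (-1) ^ m * chiS G (G.neighborSet v))) := by
  classical
  have hH : Pool.Agent.Y131.KS.HSph (flagComplex G) n := ⟨h2.1, h2.2.1, h2.2.2.1, h2.2.2.2⟩
  have hrel : ∀ A : Set (Fin N), Criterion n G A → ∀ A' : Set (Fin N), A' ⊆ A → ∀ i : ℕ, n < 2 * i →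
      LV (G.induce A') i := fun A hA A' hA' i hi => rel_van G hR h2 A hA A' hA' i hi
  have hS : Criterion n G Set.univ → ∀ i, 2 * i ≠ n → LV G i := by
    intro hc i hi
    exact Pool.Agent.Q169.RC.lv_of (singer_of_above hR
      (fun j hj => (lv_univ G j).1 (hrel Set.univ hc Set.univ (le_refl _) j hj) _ _) i hi)
  refine ⟨?_, ?_⟩
  · rintro m rfl
    refine onlyMiddle m _ _ (fun i hi => ?_) ?_
    · refine del_indep G i (hS hc i (by omega)) I hI (fun v hv => ?_) _ _
      rcases Nat.eq_zero_or_pos m with hm | hm
      · exfalso
        have h3 := hH.card_le {v} ((mem_flag G _).2 (by simp))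
        rw [card_singleton] at h3
        omega
      · exact link_singer (k := 2 * m - 1) G (flagComplex G) (mem_flag G) hH hR (by omega) v (hg v hv) i (by omega)
    · rw [chiW_induce, chi_indep G I hI]
      have h3 : ∑ v ∈ I, chiS G (G.neighborSet v) = 0 := by
        refine sum_eq_zero fun v _ => ?_
        have h4 := hH.card_le {v} ((mem_flag G _).2 (by simp))
        rw [card_singleton] at h4
        have h5 := HSph_lk (k := 2 * (m - 1) + 1) G {v} (by simp) (by rw [card_singleton]; omega) hR
        have h6 := chi_odd _ h5
        rw [chiW_induce, lk_one] at h6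
        exact h6
      rw [h3, mul_zero, add_zero]
  · rintro m rfl
    refine onlyMiddle m _ _ (fun i hi => ?_) ?_
    · refine del_indep G i (hS hc i (by omega)) I hI (fun v hv => ?_) _ _
      exact link_singer (k := 2 * m) G (flagComplex G) (mem_flag G) hH hR rfl v (hg v hv) i (by omega)
    · rw [chiW_induce, chi_indep G I hI, chi_odd G hR, zero_add, mul_sum, mul_sum, mul_sum]
      exact sum_congr rfl fun v _ => by ring

end Pool.Agent.Results.MP_8fe54c_gt.IndependentDeletion
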