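import Pool.Agent.Q173.LB.Data

/-!
# L²-Betti numbers above the middle dimension: exponentially small proportions are enough

For compact aspherical manifolds with boundary the vanishing of the L²-Betti numbers above the middle dimension is
equivalent to an asymptotic upper bound: for infinitely many degrees `k` the number `b_k(X)` is an exponentially small
proportion of the number of cells, for the manifolds `X` of dimension less than `(2 - ε) k`.
-/

set_option autoImplicit false

open Pool.Agent.Q173.LB

namespace Pool.Agent.Results.MP_8fe54c_gt.SmallProportions

universe u

theorem result {V : Type u} {D : CellData V} (h : D.IsKnown) :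
    (∀ X k, D.dim X < 2 * k → D.b X k = 0) ↔
      ∀ c : ℝ, ∀ ε : ℝ, 0 < ε → ∀ M : ℕ, ∃ k, M ≤ k ∧
        ∀ X, (D.dim X : ℝ) < (2 - ε) * k →
          D.b X k < Real.exp (-c * D.dim X) * D.cells X :=
  h.question_iff

end Pool.Agent.Results.MP_8fe54c_gt.SmallProportions
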